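import Pool.Agent.Helper45.LGB.St2

set_option autoImplicit false

namespace Pool.Agent.Helper76.LGB

open Pool.Agent.Helper45.LGB Pool.Agent.Helper83.RB

open scoped BigOperators

open scoped commutatorElement

private theorem eqv {G : Type} [Group G] {V : Type} [AddCommGroup V] (e : ℕ → G → V)
    (he : ∀ k, ∀ a ∈ (⊤ : Subgroup G).lowerCentralSeries k,
        ∀ b ∈ (⊤ : Subgroup G).lowerCentralSeries k, e k (a * b) = e k a + e k b)
    (h0 : ∀ k, ∀ a ∈ (⊤ : Subgroup G).lowerCentralSeries k,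
        (e k a = 0 ↔ a ∈ (⊤ : Subgroup G).lowerCentralSeries (k + 1)))
    (k : ℕ) (x y : G) (hx : x ∈ (⊤ : Subgroup G).lowerCentralSeries k)
    (hy : y ∈ (⊤ : Subgroup G).lowerCentralSeries k)
    (hxy : x * y⁻¹ ∈ (⊤ : Subgroup G).lowerCentralSeries (k + 1)) : e k x = e k y := by
  have h1 : x * y⁻¹ ∈ (⊤ : Subgroup G).lowerCentralSeries k := mul_mem hx (inv_mem hy)
  have h2 := he k (x * y⁻¹) h1 y hy
  rw [inv_mul_cancel_right] at h2
  rw [h2, (h0 k _ h1).2 hxy, zero_add]

private theorem ofFn_rev {α : Type} (n : ℕ) (f : Fin n → α) :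
    (List.ofFn f).reverse = List.ofFn fun i => f (Fin.rev i) := by
  rw [List.ofFn_eq_map, List.ofFn_eq_map, ← List.map_reverse, List.finRange_reverse, List.map_map]
  rfl

private theorem lst {p : ℕ} [Fact p.Prime] {G : Type} [Group G] {V : Type} [AddCommGroup V]
    [Module (ZMod p) V] (e : ℕ → G → V) (D : ℕ → G → Module.End (ZMod p) V)
    (hD : ∀ k w, ∀ a ∈ (⊤ : Subgroup G).lowerCentralSeries k,
        ∀ g ∈ (⊤ : Subgroup G).lowerCentralSeries w, D w g (e k a) = e (k + w + 1) ⁅a, g⁆)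
    (hC : ∀ k w : ℕ, ∀ a ∈ (⊤ : Subgroup G).lowerCentralSeries k,
      ∀ g ∈ (⊤ : Subgroup G).lowerCentralSeries w,
      ⁅a, g⁆ ∈ (⊤ : Subgroup G).lowerCentralSeries (k + w + 1))
    (k : ℕ) (a : G) (ha : a ∈ (⊤ : Subgroup G).lowerCentralSeries k) :
    ∀ l : List (ℕ × G), (∀ q ∈ l, q.2 ∈ (⊤ : Subgroup G).lowerCentralSeries q.1) →
      ic a (l.map Prod.snd).reverse ∈
        (⊤ : Subgroup G).lowerCentralSeries (k + (l.map fun q => q.1 + 1).sum) ∧
      (l.map fun q => D q.1 q.2).prod (e k a) =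
        e (k + (l.map fun q => q.1 + 1).sum) (ic a (l.map Prod.snd).reverse) := by
  intro l
  induction l with
  | nil =>
    intro _
    refine ⟨?_, ?_⟩
    · simpa [ic] using ha
    · simp [ic]
  | cons q l ih =>
    intro hl
    obtain ⟨h1, h2⟩ := ih fun r hr => hl r (List.mem_cons_of_mem _ hr)
    have hq : q.2 ∈ (⊤ : Subgroup G).lowerCentralSeries q.1 := hl q List.mem_cons_self
    have hK : k + ((q :: l).map fun q => q.1 + 1).sum
        = k + (l.map fun q => q.1 + 1).sum + q.1 + 1 := by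
      rw [List.map_cons, List.sum_cons]; ring
    have hI : ic a ((q :: l).map Prod.snd).reverse
        = ⁅ic a (l.map Prod.snd).reverse, q.2⁆ := by
      simp [ic, List.foldl_append]
    rw [hK, hI]
    refine ⟨hC _ _ _ h1 _ hq, ?_⟩
    rw [List.map_cons, List.prod_cons, Module.End.mul_apply, h2, hD _ _ _ h1 _ hq]

private theorem eprod {G : Type} [Group G] {V : Type} [AddCommGroup V] (e : ℕ → G → V)
    (he : ∀ k, ∀ a ∈ (⊤ : Subgroup G).lowerCentralSeries k,
        ∀ b ∈ (⊤ : Subgroup G).lowerCentralSeries k, e k (a * b) = e k a + e k b)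
    (h0 : ∀ k, ∀ a ∈ (⊤ : Subgroup G).lowerCentralSeries k,
        (e k a = 0 ↔ a ∈ (⊤ : Subgroup G).lowerCentralSeries (k + 1)))
    (K : ℕ) : ∀ l : List G, (∀ x ∈ l, x ∈ (⊤ : Subgroup G).lowerCentralSeries K) →
      l.prod ∈ (⊤ : Subgroup G).lowerCentralSeries K ∧ e K l.prod = (l.map (e K)).sum := by
  intro l
  induction l with
  | nil =>
    intro _
    refine ⟨by simp [one_mem], ?_⟩
    simp only [List.prod_nil, List.map_nil, List.sum_nil]
    exact (h0 K 1 (one_mem _)).2 (one_mem _)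
  | cons x l ih =>
    intro hl
    obtain ⟨h1, h2⟩ := ih fun r hr => hl r (List.mem_cons_of_mem _ hr)
    have hx := hl x List.mem_cons_self
    rw [List.prod_cons, List.map_cons, List.sum_cons]
    exact ⟨mul_mem hx h1, by rw [he K x hx _ h1, h2]⟩

theorem hGRD (hBIL : StBIL) (hENG : StENG) : StGRD := by
  intro p _ G _ hexp V _ _ e D he h0 hD hF
  obtain ⟨hC, hA, hL, hR, hJ⟩ := hBIL G
  have hadd : ∀ w, ∀ g ∈ (⊤ : Subgroup G).lowerCentralSeries w,
      ∀ h ∈ (⊤ : Subgroup G).lowerCentralSeries w, D w (g * h) = D w g + D w h := by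
    intro w g hg h hh
    refine sub_eq_zero.1 (hF _ ?_)
    intro k a ha
    rw [LinearMap.sub_apply, LinearMap.add_apply, hD k w a ha _ (mul_mem hg hh),
      hD k w a ha g hg, hD k w a ha h hh, ← he _ _ (hC k w a ha g hg) _ (hC k w a ha h hh),
      sub_eq_zero]
    exact eqv e he h0 _ _ _ (hC k w a ha _ (mul_mem hg hh))
      (mul_mem (hC k w a ha g hg) (hC k w a ha h hh)) (hR k w a ha g hg h hh)
  have hcb : ∀ w w', ∀ g ∈ (⊤ : Subgroup G).lowerCentralSeries w,
      ∀ h ∈ (⊤ : Subgroup G).lowerCentralSeries w',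
      cb (D w g) (D w' h) = D (w + w' + 1) ⁅h, g⁆ := by
    intro w w' g hg h hh
    refine sub_eq_zero.1 (hF _ ?_)
    intro k a ha
    have hhg : ⁅h, g⁆ ∈ (⊤ : Subgroup G).lowerCentralSeries (w + w' + 1) := by
      have := hC w' w h hh g hg
      rwa [add_comm w' w] at this
    have e1 : k + w' + 1 + w + 1 = k + w + w' + 2 := by ring
    have e2 : k + w + 1 + w' + 1 = k + w + w' + 2 := by ring
    have e3 : k + (w + w' + 1) + 1 = k + w + w' + 2 := by ring
    have m1 : ⁅⁅a, h⁆, g⁆ ∈ (⊤ : Subgroup G).lowerCentralSeries (k + w + w' + 2) := by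
      have := hC _ _ _ (hC k w' a ha h hh) g hg
      rwa [e1] at this
    have m2 : ⁅⁅a, g⁆, h⁆ ∈ (⊤ : Subgroup G).lowerCentralSeries (k + w + w' + 2) := by
      have := hC _ _ _ (hC k w a ha g hg) h hh
      rwa [e2] at this
    have m3 : ⁅a, ⁅h, g⁆⁆ ∈ (⊤ : Subgroup G).lowerCentralSeries (k + w + w' + 2) := by
      have := hC _ _ _ ha _ hhg
      rwa [e3] at this
    have key : e (k + w + w' + 2) ⁅⁅a, h⁆, g⁆
        = e (k + w + w' + 2) ⁅a, ⁅h, g⁆⁆ + e (k + w + w' + 2) ⁅⁅a, g⁆, h⁆ := by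
      rw [← he _ _ m3 _ m2]
      exact eqv e he h0 _ _ _ m1 (mul_mem m3 m2) (hJ k w w' a ha g hg h hh)
    have hc : (cb (D w g) (D w' h)) (e k a)
        = D w g (D w' h (e k a)) - D w' h (D w g (e k a)) := rfl
    rw [LinearMap.sub_apply, hc, hD k w' a ha h hh, hD k w a ha g hg,
      hD _ _ _ (hC k w' a ha h hh) g hg, hD _ _ _ (hC k w a ha g hg) h hh,
      hD _ _ _ ha _ hhg, e1, e2, e3, key]
    abel
  refine ⟨hadd, hcb, ?_, ?_⟩
  · intro ω g hg
    refine hF _ ?_
    intro k a ha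
    have hω : ∀ σ : Equiv.Perm (Fin (p - 1)), ∑ i, (ω (σ i) + 1) = ∑ j, (ω j + 1) :=
      fun σ => Equiv.sum_comp σ fun j => ω j + 1
    have hone : ∀ σ : Equiv.Perm (Fin (p - 1)),
        ic a (List.ofFn fun i => g (σ (Fin.rev i))) ∈
          (⊤ : Subgroup G).lowerCentralSeries (k + ∑ j, (ω j + 1)) ∧
        (List.ofFn fun i => D (ω (σ i)) (g (σ i))).prod (e k a)
          = e (k + ∑ j, (ω j + 1)) (ic a (List.ofFn fun i => g (σ (Fin.rev i)))) := by
      intro σ
      have := lst e D hD hC k a ha (List.ofFn fun i => (ω (σ i), g (σ i))) (by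
        intro q hq
        rw [List.mem_ofFn] at hq
        obtain ⟨i, rfl⟩ := hq
        exact hg (σ i))
      have hs : ((List.ofFn fun i => (ω (σ i), g (σ i))).map fun q => q.1 + 1).sum
          = ∑ j, (ω j + 1) := by
        rw [List.map_ofFn, List.sum_ofFn, ← hω σ]
        rfl
      have hr : ((List.ofFn fun i => (ω (σ i), g (σ i))).map Prod.snd).reverse
          = List.ofFn fun i => g (σ (Fin.rev i)) := by
        rw [List.map_ofFn, ofFn_rev]
        rfl
      rw [hs, hr, List.map_ofFn] at this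
      exact this
    have hone' : ∀ σ : Equiv.Perm (Fin (p - 1)),
        ic a (List.ofFn fun i => g (σ i)) ∈
          (⊤ : Subgroup G).lowerCentralSeries (k + ∑ j, (ω j + 1)) := by
      intro σ
      have := (hone (σ * Fin.revPerm)).1
      have h2 : (fun i => g ((σ * Fin.revPerm : Equiv.Perm (Fin (p - 1))) (Fin.rev i)))
          = fun i => g (σ i) := by
        funext i
        simp [Equiv.Perm.mul_apply]
      rwa [h2] at this
    rw [LinearMap.sum_apply]
    have hsum : ∑ σ : Equiv.Perm (Fin (p - 1)),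
        (List.ofFn fun i => D (ω (σ i)) (g (σ i))).prod (e k a)
        = ∑ σ : Equiv.Perm (Fin (p - 1)),
          e (k + ∑ j, (ω j + 1)) (ic a (List.ofFn fun i => g (σ i))) := by
      rw [← Equiv.sum_comp (Equiv.mulRight (Fin.revPerm : Equiv.Perm (Fin (p - 1))))
        fun σ => e (k + ∑ j, (ω j + 1)) (ic a (List.ofFn fun i => g (σ i)))]
      refine Finset.sum_congr rfl fun σ _ => ?_
      rw [(hone σ).2]
      rfl
    rw [hsum]
    have hpr := eprod e he h0 (k + ∑ j, (ω j + 1))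
      ((Finset.univ : Finset (Equiv.Perm (Fin (p - 1)))).toList.map fun σ =>
        ic a (List.ofFn fun i => g (σ i))) (by
      intro x hx
      rw [List.mem_map] at hx
      obtain ⟨σ, _, rfl⟩ := hx
      exact hone' σ)
    have heng := hENG p G hexp (k + 1) (fun j => ω j + 1) g a (by omega) (fun j => by omega)
      (by simpa [gm] using ha) (fun j => by simpa [gm] using hg j)
    have hg2 : gm G (k + 1 + ∑ j, (ω j + 1) + 1)
        = (⊤ : Subgroup G).lowerCentralSeries (k + ∑ j, (ω j + 1) + 1) := by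
      unfold gm
      congr 1
      omega
    rw [hg2] at heng
    have hz := (h0 _ _ hpr.1).2 heng
    rw [hpr.2, List.map_map] at hz
    rw [← hz, ← Finset.sum_map_toList]
    rfl
  · intro g h hgh
    have hg : g ∈ (⊤ : Subgroup G).lowerCentralSeries 0 := by
      rw [Subgroup.lowerCentralSeries_zero]; exact Subgroup.mem_top g
    have hh : h ∈ (⊤ : Subgroup G).lowerCentralSeries 0 := by
      rw [Subgroup.lowerCentralSeries_zero]; exact Subgroup.mem_top h
    have h1 := hcb 0 0 g hg h hh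
    have hc : ⁅h, g⁆ = 1 := by
      rw [commutatorElement_eq_one_iff_mul_comm]
      exact hgh.symm
    rw [hc] at h1
    have h2 := hadd (0 + 0 + 1) 1 (one_mem _) 1 (one_mem _)
    rw [mul_one] at h2
    have h3 : D (0 + 0 + 1) (1 : G) = 0 := by
      have := h2.symm
      rwa [add_eq_left] at this
    rw [h3] at h1
    exact sub_eq_zero.1 h1

end Pool.Agent.Helper76.LGB
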